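import Pool.Graph.R_seed8.MP58366f.Fin2
import Pool.Graph.R_pool_sql_team_ae5b0c61.H49.MP2

/-!
# An inner function in `M_p A` for all `p ∈ [4/3, 4]` which is not a Carleson-Blaschke product

The library (`MP58366f`) has such a function for `p = 4`. Here: the norm estimates of its proof are
kept in the limit, transposed (`p = 4/3`) and interpolated (Riesz-Thorin).
-/

set_option autoImplicit false

open Finset Filter Topology

namespace Pool.Agent.helper67IM

open IM

/-- the Taylor coefficients at `0` -/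
noncomputable def tc (f : ℂ → ℂ) (n : ℕ) : ℂ := iteratedDeriv n f 0 / (n.factorial : ℂ)

/-- coefficients of a product -/
theorem tc_mul {G f : ℂ → ℂ} (hG : DifferentiableOn ℂ G (Metric.ball 0 1))
    (hf : DifferentiableOn ℂ f (Metric.ball (0 : ℂ) 1)) (n : ℕ) :
    tc (fun z => G z * f z) n = ∑ i ∈ range (n + 1), tc G i * tc f (n - i) := by
  have hnhds : Metric.ball (0 : ℂ) 1 ∈ nhds (0 : ℂ) := Metric.ball_mem_nhds _ one_pos
  have hGa : AnalyticAt ℂ G 0 := hG.analyticAt hnhds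
  have hfa : AnalyticAt ℂ f 0 := hf.analyticAt hnhds
  unfold tc
  rw [iteratedDeriv_fun_mul hGa.contDiffAt hfa.contDiffAt, Finset.sum_div]
  apply Finset.sum_congr rfl
  intro i hi
  rw [Finset.mem_range] at hi
  rw [Nat.cast_choose ℂ (by omega : i ≤ n)]
  have e1 : (n.factorial : ℂ) ≠ 0 := by exact_mod_cast n.factorial_ne_zero
  have e2 : (i.factorial : ℂ) ≠ 0 := by exact_mod_cast i.factorial_ne_zero
  have e3 : ((n - i).factorial : ℂ) ≠ 0 := by exact_mod_cast (n - i).factorial_ne_zero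
  field_simp

/-- the finite inequalities for the limit function -/
theorem coef_limit (K : ℝ) (hK : 0 ≤ K) (B : ℕ → ℂ → ℂ) (b : ℕ → ℕ → ℂ) (G : ℂ → ℂ)
    (hb : ∀ J, Summable fun m => ‖b J m‖) (hB : ∀ J, ∀ z : ℂ, ‖z‖ < 1 → B J z = ∑' m, b J m * z ^ m)
    (hMB : ∀ J, ∃ ℓ : ℕ, 1 ≤ ℓ ∧ ∀ (N : ℕ) [NeZero N], ℓ ∣ N → MB K (psym N (b J)))
    (hG : DifferentiableOn ℂ G (Metric.ball 0 1))
    (hconv : ∀ r : ℝ, r < 1 → TendstoUniformlyOn B G Filter.atTop (Metric.closedBall 0 r))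
    (a : ℕ → ℂ) (M : ℕ) :
    ∑ n ∈ range M, ‖∑ i ∈ range (n + 1), tc G i * a (n - i)‖ ^ 4 ≤
      K ^ 4 * ∑ n ∈ range M, ‖a n‖ ^ 4 := by
  have h0mem : (0 : ℂ) ∈ Metric.ball (0 : ℂ) 1 := by simp
  have hnhds : Metric.ball (0 : ℂ) 1 ∈ nhds (0 : ℂ) := Metric.ball_mem_nhds _ one_pos
  have hGa : AnalyticAt ℂ G 0 := hG.analyticAt hnhds
  -- convergence of coefficients
  have hcoef : ∀ i, Filter.Tendsto (fun J => b J i) Filter.atTop
      (nhds (iteratedDeriv i G 0 / (i.factorial : ℂ))) := by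
    intro i
    rw [Metric.tendsto_atTop]
    intro ε hε
    have hun := hconv (1 / 2) (by norm_num)
    rw [Metric.tendstoUniformlyOn_iff] at hun
    have hε' : 0 < ε / 2 * (1 / 2) ^ i := by positivity
    obtain ⟨J0, hJ0⟩ := Filter.eventually_atTop.1 (hun _ hε')
    refine ⟨J0, fun J hJ => ?_⟩
    obtain ⟨hBd, hBc⟩ := coef_of_series (b J) (hb J) (B J) (hB J)
    have hBa : AnalyticAt ℂ (B J) 0 := hBd.analyticAt hnhds
    rw [← hBc i, dist_eq_norm, ← sub_div, ← iteratedDeriv_fun_sub hBa.contDiffAt hGa.contDiffAt]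
    have hsub : Metric.closedBall (0 : ℂ) (1 / 2) ⊆ Metric.ball 0 1 := by
      apply Metric.closedBall_subset_ball; norm_num
    have hd : DiffContOnCl ℂ (fun z => B J z - G z) (Metric.ball 0 (1 / 2)) := by
      apply DifferentiableOn.diffContOnCl
      rw [closure_ball (0 : ℂ) (by norm_num)]
      exact (hBd.sub hG).mono hsub
    have hest := Complex.norm_iteratedDeriv_le_of_forall_mem_sphere_norm_le i
      (by norm_num : (0 : ℝ) < 1 / 2) hd (C := ε / 2 * (1 / 2) ^ i) (by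
        intro z hz
        have := hJ0 J hJ z (Metric.sphere_subset_closedBall hz)
        rw [dist_comm, dist_eq_norm] at this
        exact this.le)
    have e2 : (0 : ℝ) < (i.factorial : ℝ) := by exact_mod_cast i.factorial_pos
    rw [norm_div, Complex.norm_natCast, div_lt_iff₀ e2]
    calc _ ≤ _ := hest
      _ = ε / 2 * i.factorial := by
          have : (0 : ℝ) < (1 / 2) ^ i := by positivity
          field_simp
      _ < ε * i.factorial := by
          apply mul_lt_mul_of_pos_right _ e2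
          linarith
  -- truncation of `a`
  set a' : ℕ → ℂ := fun n => if n < M then a n else 0 with ha'
  have e1 : ∑ n ∈ range M, ‖∑ i ∈ range (n + 1), tc G i * a (n - i)‖ ^ 4 =
      ∑ n ∈ range M, ‖∑ i ∈ range (n + 1), tc G i * a' (n - i)‖ ^ 4 := by
    refine Finset.sum_congr rfl fun n hn => ?_
    rw [Finset.mem_range] at hn
    congr 2
    refine Finset.sum_congr rfl fun i _ => ?_
    rw [ha']
    simp only
    rw [if_pos (by omega)]
  have e2 : ∑ n ∈ range M, ‖a n‖ ^ 4 = ∑ n ∈ range M, ‖a' n‖ ^ 4 := by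
    refine Finset.sum_congr rfl fun n hn => ?_
    rw [Finset.mem_range] at hn
    rw [ha']
    simp only
    rw [if_pos hn]
  rw [e1, e2]
  have hA : ∀ n, ‖a' n‖ ≤ ∑ k ∈ range M, ‖a k‖ := by
    intro n
    rw [ha']
    simp only
    split_ifs with h
    · exact Finset.single_le_sum (f := fun k => ‖a k‖) (fun _ _ => norm_nonneg _)
        (Finset.mem_range.2 h)
    · rw [norm_zero]
      exact Finset.sum_nonneg fun _ _ => norm_nonneg _
  have hlim : Filter.Tendsto (fun J => ∑ n ∈ range M,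
      ‖∑ i ∈ range (n + 1), b J i * a' (n - i)‖ ^ 4) Filter.atTop
      (nhds (∑ n ∈ range M, ‖∑ i ∈ range (n + 1), tc G i * a' (n - i)‖ ^ 4)) := by
    apply tendsto_finsetSum
    intro n _
    refine Filter.Tendsto.pow (Filter.Tendsto.norm ?_) 4
    apply tendsto_finsetSum
    intro i _
    exact (hcoef i).mul_const _
  exact le_of_tendsto' hlim (fun J => conv_ineq K hK (b J) (hb J) (hMB J) a' _ hA M)

open Pool.Agent.H49.MP

/-- the lower triangular Toeplitz matrix of a sequence -/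
def LT (g : ℕ → ℂ) (n k : ℕ) : ℂ := if k ≤ n then g (n - k) else 0

theorem sum_LT (g a : ℕ → ℂ) (M n : ℕ) (hn : n < M) :
    ∑ k ∈ range M, LT g n k * a k = ∑ i ∈ range (n + 1), g i * a (n - i) := by
  rw [← Finset.sum_range_reflect (fun i => g i * a (n - i)) (n + 1)]
  have h1 : ∑ k ∈ range M, LT g n k * a k = ∑ k ∈ range (n + 1), LT g n k * a k := by
    symm
    apply Finset.sum_subset
    · intro k hk
      rw [Finset.mem_range] at hk ⊢
      omega
    · intro k _ hk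
      rw [Finset.mem_range] at hk
      unfold LT
      rw [if_neg (by omega), zero_mul]
  rw [h1]
  refine Finset.sum_congr rfl fun k hk => ?_
  rw [Finset.mem_range] at hk
  unfold LT
  rw [if_pos (by omega)]
  congr 2
  omega

/-- all exponents between `4/3` and `4` -/
theorem IB_all (g : ℕ → ℂ) (K : ℝ) (hK : 0 ≤ K)
    (h : ∀ (a : ℕ → ℂ) (M : ℕ), ∑ n ∈ range M, ‖∑ i ∈ range (n + 1), g i * a (n - i)‖ ^ 4 ≤
      K ^ 4 * ∑ n ∈ range M, ‖a n‖ ^ 4) (p : ℝ) (hp : 4 / 3 ≤ p) (hp4 : p ≤ 4) (M : ℕ) :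
    IB p (LT g) (range M) (range M) K := by
  have hrp : ∀ x : ℝ, x ^ (4 : ℝ) = x ^ 4 := fun x => by
    have := Real.rpow_natCast x 4
    exact_mod_cast this
  have h4 : IB 4 (LT g) (range M) (range M) K := by
    rw [IB_iff (by norm_num)]
    refine ⟨hK, fun a => ?_⟩
    simp only [hrp]
    refine le_trans (le_of_eq ?_) (h a M)
    refine Finset.sum_congr rfl fun n hn => ?_
    rw [Finset.mem_range] at hn
    rw [sum_LT g a M n hn]
  have hc : (4 / 3 : ℝ).HolderConjugate 4 := by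
    rw [Real.holderConjugate_iff]
    norm_num
  have h43 : IB (4 / 3) (LT g) (range M) (range M) K := by
    apply IB.dual hc
    have h5 : IB 4 (fun n k => LT g (M - 1 - n) (M - 1 - k)) (range M) (range M) K := by
      refine IB.pull (by norm_num) h4 (fun n => M - 1 - n) (fun n => M - 1 - n) ?_ ?_ ?_ ?_
      · intro x hx y hy hxy
        simp only [Finset.coe_range, Set.mem_Iio] at hx hy
        simp only at hxy
        omega
      · intro x hx y hy hxy
        simp only [Finset.coe_range, Set.mem_Iio] at hx hy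
        simp only at hxy
        omega
      · intro n hn
        rw [Finset.mem_range] at hn ⊢
        omega
      · intro n hn
        rw [Finset.mem_range] at hn ⊢
        omega
    refine h5.congr fun n hn k hk => ?_
    rw [Finset.mem_range] at hn hk
    unfold LT
    by_cases hnk : n ≤ k
    · rw [if_pos hnk, if_pos (by omega)]
      congr 1; omega
    · rw [if_neg hnk, if_neg (by omega)]
  have hp0 : 0 < p := by linarith
  have i1 : p⁻¹ ≤ 3 / 4 := by
    rw [inv_le_comm₀ hp0 (by norm_num)]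
    linarith
  have i2 : 1 / 4 ≤ p⁻¹ := by
    rw [le_inv_comm₀ (by norm_num) hp0]
    linarith
  exact IB.interp (p := p) (p0 := 4 / 3) (p1 := 4) (θ := 3 / 2 - 2 * p⁻¹) (by linarith)
    (by norm_num) (by norm_num) (by linarith) (by linarith) (by ring) h43 h4

/-- convolution with `(ĝ n)`, `ĝ n = 0` for `n < 0`, on finitely supported sequences over `ℤ` -/
theorem conv_all (g : ℕ → ℂ) (K : ℝ) (hK : 0 ≤ K)
    (h : ∀ (a : ℕ → ℂ) (M : ℕ), ∑ n ∈ range M, ‖∑ i ∈ range (n + 1), g i * a (n - i)‖ ^ 4 ≤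
      K ^ 4 * ∑ n ∈ range M, ‖a n‖ ^ 4) (p : ℝ) (hp : 4 / 3 ≤ p) (hp4 : p ≤ 4) (N S : Finset ℤ)
    (a : ℤ → ℂ) :
    ∑ n ∈ N, ‖∑ k ∈ S, (if 0 ≤ n - k then g (n - k).toNat else 0) * a k‖ ^ p ≤
      K ^ p * ∑ k ∈ S, ‖a k‖ ^ p := by
  have hp0 : 0 < p := by linarith
  obtain ⟨R, hR⟩ : ∃ R : ℕ, ∀ n ∈ N ∪ S, n.natAbs ≤ R :=
    ⟨(N ∪ S).sup Int.natAbs, fun n hn => Finset.le_sup hn⟩
  have hN : ∀ n ∈ N, n.natAbs ≤ R := fun n hn => hR n (Finset.mem_union_left _ hn)
  have hS : ∀ n ∈ S, n.natAbs ≤ R := fun n hn => hR n (Finset.mem_union_right _ hn)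
  have h1 : IB p (fun n k : ℤ => LT g (n + R).toNat (k + R).toNat) N S K := by
    refine IB.pull hp0 (IB_all g K hK h p hp hp4 (2 * R + 1)) (fun n : ℤ => (n + R).toNat)
      (fun n : ℤ => (n + R).toNat) ?_ ?_ ?_ ?_
    · intro x hx y hy hxy
      have h2 := hN x hx
      have h3 := hN y hy
      simp only at hxy
      omega
    · intro x hx y hy hxy
      have h2 := hS x hx
      have h3 := hS y hy
      simp only at hxy
      omega
    · intro n hn
      have h2 := hN n hn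
      rw [Finset.mem_range]
      omega
    · intro n hn
      have h2 := hS n hn
      rw [Finset.mem_range]
      omega
  have h2 : IB p (fun n k : ℤ => if 0 ≤ n - k then g (n - k).toNat else 0) N S K := by
    refine h1.congr fun n hn k hk => ?_
    have h3 := hN n hn
    have h4 := hS k hk
    unfold LT
    by_cases hnk : 0 ≤ n - k
    · rw [if_pos hnk, if_pos (by omega)]
      congr 1; omega
    · rw [if_neg hnk, if_neg (by omega)]
  exact ((IB_iff hp0).1 h2).2 a

/-- the multiplier property for all exponents between `4/3` and `4`, with one constant -/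
theorem mult_all {G : ℂ → ℂ} (hG : DifferentiableOn ℂ G (Metric.ball 0 1)) (K : ℝ) (hK : 0 ≤ K)
    (h : ∀ (a : ℕ → ℂ) (M : ℕ), ∑ n ∈ range M, ‖∑ i ∈ range (n + 1), tc G i * a (n - i)‖ ^ 4 ≤
      K ^ 4 * ∑ n ∈ range M, ‖a n‖ ^ 4) (p : ℝ) (hp : 4 / 3 ≤ p) (hp4 : p ≤ 4)
    (f : ℂ → ℂ) (hf : DifferentiableOn ℂ f (Metric.ball (0 : ℂ) 1))
    (hs : Summable (fun n : ℕ => ‖tc f n‖ ^ p)) :
    Summable (fun n : ℕ => ‖tc (fun z => G z * f z) n‖ ^ p) ∧
      ∑' n, ‖tc (fun z => G z * f z) n‖ ^ p ≤ K ^ p * ∑' n, ‖tc f n‖ ^ p := by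
  have hp0 : 0 < p := by linarith
  have key : ∀ M, ∑ n ∈ range M, ‖tc (fun z => G z * f z) n‖ ^ p ≤
      K ^ p * ∑' n, ‖tc f n‖ ^ p := by
    intro M
    have h1 := (IB_iff hp0).1 (IB_all (tc G) K hK h p hp hp4 M)
    have h2 := h1.2 (tc f)
    refine le_trans (le_of_eq ?_) (h2.trans ?_)
    · refine Finset.sum_congr rfl fun n hn => ?_
      rw [Finset.mem_range] at hn
      rw [sum_LT _ _ M n hn, tc_mul hG hf]
    · apply mul_le_mul_of_nonneg_left _ (by positivity)
      exact hs.sum_le_tsum _ (fun _ _ => by positivity)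
  have hsum : Summable (fun n : ℕ => ‖tc (fun z => G z * f z) n‖ ^ p) :=
    summable_of_sum_range_le (c := K ^ p * ∑' n, ‖tc f n‖ ^ p) (fun _ => by positivity) key
  exact ⟨hsum, hsum.tsum_le_of_sum_range_le key⟩

/-- the inner function -/
theorem exists_inner : ∃ (G : ℂ → ℂ) (K : ℝ), 0 ≤ K ∧
    DifferentiableOn ℂ G (Metric.ball (0 : ℂ) 1) ∧
    (∀ z ∈ Metric.ball (0 : ℂ) 1, ‖G z‖ ≤ 1) ∧
    (∀ᵐ θ : ℝ ∂MeasureTheory.volume, ∃ w : ℂ, ‖w‖ = 1 ∧
        Filter.Tendsto (fun r : ℝ => G ((r : ℂ) * Complex.exp ((θ : ℂ) * Complex.I)))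
          (nhdsWithin (1 : ℝ) (Set.Iio 1)) (nhds w)) ∧
    (∀ (a : ℕ → ℂ) (M : ℕ), ∑ n ∈ range M, ‖∑ i ∈ range (n + 1), tc G i * a (n - i)‖ ^ 4 ≤
      K ^ 4 * ∑ n ∈ range M, ‖a n‖ ^ 4) ∧
    (∀ M : ℕ, ∃ z : Fin M → ℂ, Function.Injective z ∧ (∀ i, ‖z i‖ < 1) ∧ (∀ i, G (z i) = 0) ∧
      ∀ i l, 2 * ‖z i - z l‖ ≤ ‖1 - (starRingEnd ℂ) (z l) * z i‖) := by
  obtain ⟨K, κ, l, C, μ, hK, hblk, hμ, hl, hMB⟩ := main_exists
  have hAN : ∀ j, ∃ c, AN c (uf (κ j)) := fun j => uf_AN (hblk j).summ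
  obtain ⟨G, hG1, hG2, hG3, hG4, hG5⟩ := inf_prod (fun j => uf (κ j))
    (fun j => by obtain ⟨c, hc⟩ := hAN j; exact AN_cont hc)
    (fun j => by obtain ⟨c, hc⟩ := hAN j; exact AN_diff hc)
    (fun j z hz => (hblk j).le_one z hz) (fun j z hz => (hblk j).unim z hz)
    (fun j z hz => by
      have := (hblk j).near z hz
      simp only [uf, add_sub_cancel_left]
      exact this.trans (hμ j))
  have hprodAN : ∀ J, ∃ c, AN c (fun z => ∏ j ∈ range J, uf (κ j) z) := by
    intro J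
    induction J with
    | zero => exact ⟨_, (by simpa using W702.AN_const 1)⟩
    | succ J ih =>
      obtain ⟨c, hc⟩ := ih
      obtain ⟨c', hc'⟩ := hAN J
      refine ⟨_, W702.AN_congr (W702.AN_mul hc hc') fun z _ => ?_⟩
      rw [Finset.prod_range_succ]
  choose cJ hcJ using hprodAN
  choose b hb1 hb2 hb3 using hcJ
  refine ⟨G, K, hK, hG1, hG2, hG5, ?_, ?_⟩
  · intro a M
    refine coef_limit K hK (fun J z => ∏ j ∈ range J, uf (κ j) z) b G hb1
      (fun J z hz => hb3 J z hz.le) ?_ hG1 hG4 a M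
    intro J
    refine ⟨l J, hl J, fun N _ hN => ?_⟩
    refine (hMB J N hN).congr fun i => ?_
    rw [psym_eq, ← hb3 J _ (E_norm i).le]
    apply Finset.prod_congr rfl; intro j _
    rw [psym_eq]; rfl
  · intro M
    obtain ⟨z, hz1, hz2, hz3, hz4⟩ := (hblk M).zeros
    refine ⟨z, hz1, hz2, fun i => ?_, hz4⟩
    exact hG3 M (z i) (by simpa using hz2 i) (hz3 i)

end Pool.Agent.helper67IM
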